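import Pool.Agent.Lib.MP_1a97ab_gt.Main

set_option autoImplicit false

open Pool.Agent.Lib.MP_1a97ab_gt

namespace Pool.Agent.Results.MP_1a97ab_gt.Classification

/-- Every convex Brunnian link in every Euclidean space is ambient isotopic to a member
`L_{i,j,n}` of the three-parameter family. -/
theorem result (n m : ℕ) (F : Fin m → Set (Euc n)) (hlink : IsLink F)
    (hconv : ∀ r, IsConvexKnot (F r)) (hbrun : IsBrunnian F) :
    ∃ i j : ℕ, 1 ≤ i ∧ i + j + 2 ≤ n ∧ AmbientIsotopic (⋃ r, F r) (famL i j n) :=
  main n m F hlink hconv hbrun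

end Pool.Agent.Results.MP_1a97ab_gt.Classification
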